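import Mathlib
import Pool.Agent.helper68.B2.Defs
import Pool.Agent.helper25.B2.Block
import Pool.Agent.helper25.B2.TDefs

/-! # MP_b2b189_gt: module T1a, calculus in the frame, first part

The names are in the sub-namespace `T` because several of them are also declared in B0a, B0b. -/

set_option autoImplicit false

namespace Pool.Agent.helper68.B2.T

open scoped ContDiff Topology Matrix
open Matrix Set Filter

theorem T1a_J (i : Fin 3) (x : E4) (a : Fin 4) : (J i x) a = ∑ b, Jm i a b * x b := by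
  show (Matrix.toEuclideanCLM (𝕜 := ℝ) (Jm i) x).ofLp a = _
  rw [Matrix.ofLp_toEuclideanCLM]
  rfl

theorem T1a_inner (x y : E4) : inner ℝ x y = ∑ a, x a * y a := by
  rw [EuclideanSpace.inner_eq_star_dotProduct]
  simp [dotProduct, mul_comm]

theorem T1a_norm_sq (x : E4) : ‖x‖ ^ 2 = ∑ a, x a * x a := by
  rw [← real_inner_self_eq_norm_sq, T1a_inner]

theorem T1a_J0 (x : E4) : (J 0 x) 0 = - x 1 ∧ (J 0 x) 1 = x 0 ∧ (J 0 x) 2 = x 3 ∧
    (J 0 x) 3 = - x 2 := by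
  refine ⟨?_, ?_, ?_, ?_⟩ <;> rw [T1a_J] <;> simp [Jm, Fin.sum_univ_four]

theorem T1a_J1 (x : E4) : (J 1 x) 0 = - x 2 ∧ (J 1 x) 1 = - x 3 ∧ (J 1 x) 2 = x 0 ∧
    (J 1 x) 3 = x 1 := by
  refine ⟨?_, ?_, ?_, ?_⟩ <;> rw [T1a_J] <;> simp [Jm, Fin.sum_univ_four]

theorem T1a_J2 (x : E4) : (J 2 x) 0 = - x 3 ∧ (J 2 x) 1 = x 2 ∧ (J 2 x) 2 = - x 1 ∧
    (J 2 x) 3 = x 0 := by
  refine ⟨?_, ?_, ?_, ?_⟩ <;> rw [T1a_J] <;> simp [Jm, Fin.sum_univ_four]

theorem T1a_inner_J_J (i j : Fin 3) (x : E4) :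
    inner ℝ (J i x) (J j x) = if i = j then ‖x‖ ^ 2 else 0 := by
  obtain ⟨a0, a1, a2, a3⟩ := T1a_J0 x
  obtain ⟨b0, b1, b2, b3⟩ := T1a_J1 x
  obtain ⟨c0, c1, c2, c3⟩ := T1a_J2 x
  rw [T1a_inner, T1a_norm_sq]
  fin_cases i <;> fin_cases j <;>
    simp [Fin.sum_univ_four, a0, a1, a2, a3, b0, b1, b2, b3, c0, c1, c2, c3] <;> ring

theorem T1a_inner_J_self (i : Fin 3) (x : E4) : inner ℝ (J i x) x = (0 : ℝ) := by
  obtain ⟨a0, a1, a2, a3⟩ := T1a_J0 x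
  obtain ⟨b0, b1, b2, b3⟩ := T1a_J1 x
  obtain ⟨c0, c1, c2, c3⟩ := T1a_J2 x
  rw [T1a_inner]
  fin_cases i <;>
    simp [Fin.sum_univ_four, a0, a1, a2, a3, b0, b1, b2, b3, c0, c1, c2, c3] <;> ring

theorem T1a_sub_apply (u v : E4) (a : Fin 4) : (u - v) a = u a - v a := rfl

theorem T1a_smul_apply (c : ℝ) (u : E4) (a : Fin 4) : (c • u) a = c * u a := rfl

theorem T1a_JJ01 (x : E4) : J 1 (J 0 x) - J 0 (J 1 x) = (2 : ℝ) • J 2 x := by
  obtain ⟨a0, a1, a2, a3⟩ := T1a_J0 x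
  obtain ⟨b0, b1, b2, b3⟩ := T1a_J1 x
  obtain ⟨c0, c1, c2, c3⟩ := T1a_J2 x
  obtain ⟨e0, e1, e2, e3⟩ := T1a_J1 (J 0 x)
  obtain ⟨g0, g1, g2, g3⟩ := T1a_J0 (J 1 x)
  ext a
  rw [T1a_sub_apply, T1a_smul_apply]
  fin_cases a
  · show (J 1 (J 0 x)) 0 - (J 0 (J 1 x)) 0 = 2 * (J 2 x) 0
    rw [e0, g0, c0, a2, b1]; ring
  · show (J 1 (J 0 x)) 1 - (J 0 (J 1 x)) 1 = 2 * (J 2 x) 1
    rw [e1, g1, c1, a3, b0]; ring
  · show (J 1 (J 0 x)) 2 - (J 0 (J 1 x)) 2 = 2 * (J 2 x) 2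
    rw [e2, g2, c2, a0, b3]; ring
  · show (J 1 (J 0 x)) 3 - (J 0 (J 1 x)) 3 = 2 * (J 2 x) 3
    rw [e3, g3, c3, a1, b2]; ring

theorem T1a_JJ12 (x : E4) : J 2 (J 1 x) - J 1 (J 2 x) = (2 : ℝ) • J 0 x := by
  obtain ⟨a0, a1, a2, a3⟩ := T1a_J0 x
  obtain ⟨b0, b1, b2, b3⟩ := T1a_J1 x
  obtain ⟨c0, c1, c2, c3⟩ := T1a_J2 x
  obtain ⟨e0, e1, e2, e3⟩ := T1a_J2 (J 1 x)
  obtain ⟨g0, g1, g2, g3⟩ := T1a_J1 (J 2 x)
  ext a
  rw [T1a_sub_apply, T1a_smul_apply]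
  fin_cases a
  · show (J 2 (J 1 x)) 0 - (J 1 (J 2 x)) 0 = 2 * (J 0 x) 0
    rw [e0, g0, a0, b3, c2]; ring
  · show (J 2 (J 1 x)) 1 - (J 1 (J 2 x)) 1 = 2 * (J 0 x) 1
    rw [e1, g1, a1, b2, c3]; ring
  · show (J 2 (J 1 x)) 2 - (J 1 (J 2 x)) 2 = 2 * (J 0 x) 2
    rw [e2, g2, a2, b1, c0]; ring
  · show (J 2 (J 1 x)) 3 - (J 1 (J 2 x)) 3 = 2 * (J 0 x) 3
    rw [e3, g3, a3, b0, c1]; ring

theorem T1a_JJ20 (x : E4) : J 0 (J 2 x) - J 2 (J 0 x) = (2 : ℝ) • J 1 x := by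
  obtain ⟨a0, a1, a2, a3⟩ := T1a_J0 x
  obtain ⟨b0, b1, b2, b3⟩ := T1a_J1 x
  obtain ⟨c0, c1, c2, c3⟩ := T1a_J2 x
  obtain ⟨e0, e1, e2, e3⟩ := T1a_J0 (J 2 x)
  obtain ⟨g0, g1, g2, g3⟩ := T1a_J2 (J 0 x)
  ext a
  rw [T1a_sub_apply, T1a_smul_apply]
  fin_cases a
  · show (J 0 (J 2 x)) 0 - (J 2 (J 0 x)) 0 = 2 * (J 1 x) 0
    rw [e0, g0, b0, c1, a3]; ring
  · show (J 0 (J 2 x)) 1 - (J 2 (J 0 x)) 1 = 2 * (J 1 x) 1
    rw [e1, g1, b1, c0, a2]; ring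
  · show (J 0 (J 2 x)) 2 - (J 2 (J 0 x)) 2 = 2 * (J 1 x) 2
    rw [e2, g2, b2, c3, a1]; ring
  · show (J 0 (J 2 x)) 3 - (J 2 (J 0 x)) 3 = 2 * (J 1 x) 3
    rw [e3, g3, b3, c2, a0]; ring

theorem T1a_J_J (i j : Fin 3) (x : E4) :
    J j (J i x) - J i (J j x) = ∑ k, (2 * eps i j k) • J k x := by
  have h01 := T1a_JJ01 x
  have h12 := T1a_JJ12 x
  have h20 := T1a_JJ20 x
  rw [Fin.sum_univ_three]
  fin_cases i <;> fin_cases j
  · simp [eps]
  · show J 1 (J 0 x) - J 0 (J 1 x) = _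
    rw [h01]; simp [eps]
  · show J 2 (J 0 x) - J 0 (J 2 x) = _
    rw [← neg_sub, h20]; simp [eps]
  · show J 0 (J 1 x) - J 1 (J 0 x) = _
    rw [← neg_sub, h01]; simp [eps]
  · simp [eps]
  · show J 2 (J 1 x) - J 1 (J 2 x) = _
    rw [h12]; simp [eps]
  · show J 0 (J 2 x) - J 2 (J 0 x) = _
    rw [h20]; simp [eps]
  · show J 1 (J 2 x) - J 2 (J 1 x) = _
    rw [← neg_sub, h12]; simp [eps]
  · simp [eps]

/-- `fld` as a continuous linear map in the components -/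
noncomputable def T1a_fldL (x : E4) : V3 →L[ℝ] E4 :=
  ∑ i, (ContinuousLinearMap.proj (R := ℝ) (φ := fun _ : Fin 3 => ℝ) i).smulRight (J i x)

theorem T1a_fldL_apply (x : E4) (v : V3) : T1a_fldL x v = fld v x := by
  simp [T1a_fldL, fld]

theorem T1a_fld_ee (i : Fin 3) (x : E4) : fld (ee i) x = J i x := by
  unfold fld ee
  rw [Finset.sum_eq_single i]
  · simp
  · intro b _ hb; simp [hb]
  · simp

theorem T1a_fld_add (v w : V3) (x : E4) : fld (v + w) x = fld v x + fld w x := by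
  rw [← T1a_fldL_apply, ← T1a_fldL_apply, ← T1a_fldL_apply, map_add]

theorem T1a_fld_sub (v w : V3) (x : E4) : fld (v - w) x = fld v x - fld w x := by
  rw [← T1a_fldL_apply, ← T1a_fldL_apply, ← T1a_fldL_apply, map_sub]

theorem T1a_fld_smul (c : ℝ) (v : V3) (x : E4) : fld (c • v) x = c • fld v x := by
  rw [← T1a_fldL_apply, ← T1a_fldL_apply, map_smul]

theorem comps_fld {x : E4} (hx : x ≠ 0) (v : V3) : comps x (fld v x) = v := by
  funext i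
  have h0 : ‖x‖ ^ 2 ≠ 0 := pow_ne_zero 2 (norm_ne_zero_iff.mpr hx)
  unfold comps fld
  rw [inner_sum]
  simp only [inner_smul_right, T1a_inner_J_J]
  rw [Finset.sum_eq_single i]
  · simp only [if_true]; field_simp
  · intro b _ hb; simp [hb.symm]
  · simp

theorem T1a_frame (x w : E4) :
    ‖x‖ ^ 2 • w = ∑ i, (inner ℝ (J i x) w : ℝ) • J i x + (inner ℝ x w : ℝ) • x := by
  ext a
  have h2 : (∑ i, (inner ℝ (J i x) w : ℝ) • J i x + (inner ℝ x w : ℝ) • x) a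
      = ∑ i, (inner ℝ (J i x) w : ℝ) * (J i x) a + (inner ℝ x w : ℝ) * x a := by
    rw [Fin.sum_univ_three, Fin.sum_univ_three]; rfl
  have h1 : (‖x‖ ^ 2 • w) a = ‖x‖ ^ 2 * w a := rfl
  rw [h1, h2, T1a_norm_sq, Fin.sum_univ_three]
  simp only [T1a_inner, Fin.sum_univ_four]
  obtain ⟨a0, a1, a2, a3⟩ := T1a_J0 x
  obtain ⟨b0, b1, b2, b3⟩ := T1a_J1 x
  obtain ⟨c0, c1, c2, c3⟩ := T1a_J2 x
  rw [a0, a1, a2, a3, b0, b1, b2, b3, c0, c1, c2, c3]
  fin_cases a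
  · show _ = _ + _ * x 0
    simp only [Fin.zero_eta, a0, b0, c0]; ring
  · show _ = _ + _ * x 1
    simp only [Fin.mk_one, a1, b1, c1]; ring
  · show _ = _ + _ * x 2
    simp only [Fin.reduceFinMk, a2, b2, c2]; ring
  · show _ = _ + _ * x 3
    simp only [Fin.reduceFinMk, a3, b3, c3]; ring

theorem fld_comps {x : E4} (hx : x ≠ 0) (w : E4) :
    w = fld (comps x w) x + (inner ℝ x w / ‖x‖ ^ 2) • x := by
  have h0 : ‖x‖ ^ 2 ≠ 0 := pow_ne_zero 2 (norm_ne_zero_iff.mpr hx)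
  have h := T1a_frame x w
  have h1 : w = (‖x‖ ^ 2)⁻¹ • (‖x‖ ^ 2 • w) := by rw [smul_smul, inv_mul_cancel₀ h0, one_smul]
  rw [h, smul_add, Finset.smul_sum] at h1
  conv_lhs => rw [h1]
  unfold fld comps
  congr 1
  · refine Finset.sum_congr rfl fun i _ => ?_
    rw [smul_smul, div_eq_inv_mul]
  · rw [smul_smul, div_eq_inv_mul]

theorem comps_self (x : E4) : comps x x = 0 := by
  funext i
  unfold comps
  rw [T1a_inner_J_self]
  simp

theorem inner_fld (v : V3) (x : E4) : inner ℝ x (fld v x) = 0 := by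
  unfold fld
  rw [inner_sum]
  refine Finset.sum_eq_zero fun i _ => ?_
  rw [inner_smul_right, real_inner_comm, T1a_inner_J_self, mul_zero]

theorem Dv_add {F : Type*} [NormedAddCommGroup F] [NormedSpace ℝ F] (f : E4 → F) (v w : V3) (x : E4) :
    Dv f (v + w) x = Dv f v x + Dv f w x := by
  unfold Dv
  rw [T1a_fld_add, map_add]

theorem Dv_smul {F : Type*} [NormedAddCommGroup F] [NormedSpace ℝ F] (f : E4 → F) (c : ℝ) (v : V3)
    (x : E4) : Dv f (c • v) x = c • Dv f v x := by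
  unfold Dv
  rw [T1a_fld_smul, map_smul]

theorem T1a_Dv_linear {F : Type*} [NormedAddCommGroup F] [NormedSpace ℝ F] (f : E4 → F) (v : V3)
    (x : E4) : Dv f v x = ∑ i, v i • Dv f (ee i) x := by
  unfold Dv
  simp only [T1a_fld_ee]
  unfold fld
  rw [map_sum]
  refine Finset.sum_congr rfl fun i _ => ?_
  rw [map_smul]

/-- homogeneous functions: the radial derivative vanishes -/
theorem fderiv_hom {F : Type*} [NormedAddCommGroup F] [NormedSpace ℝ F] {f : E4 → F} (hf : Hom f)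
    {x : E4} (hd : DifferentiableAt ℝ f x) : fderiv ℝ f x x = 0 := by
  have h1 : HasDerivAt (fun t : ℝ => t • x) x 1 := by
    simpa using (hasDerivAt_id (1 : ℝ)).smul_const x
  have hf' : HasFDerivAt f (fderiv ℝ f x) ((1 : ℝ) • x) := by
    rw [one_smul]; exact hd.hasFDerivAt
  have h2 : HasDerivAt (fun t : ℝ => f (t • x)) (fderiv ℝ f x x) 1 :=
    hf'.comp_hasDerivAt (1 : ℝ) h1
  have h3 : HasDerivAt (fun _ : ℝ => f x) (0 : F) 1 := hasDerivAt_const _ _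
  have h4 : (fun t : ℝ => f (t • x)) =ᶠ[𝓝 1] (fun _ : ℝ => f x) := by
    filter_upwards [lt_mem_nhds (show (0 : ℝ) < 1 by norm_num)] with t ht
    exact hf t ht x
  exact (h2.congr_of_eventuallyEq h4.symm).unique h3

theorem fderiv_eq_Dv {F : Type*} [NormedAddCommGroup F] [NormedSpace ℝ F] {f : E4 → F} (hf : Hom f)
    {x : E4} (hx : x ≠ 0) (hd : DifferentiableAt ℝ f x) (w : E4) :
    fderiv ℝ f x w = Dv f (comps x w) x := by
  conv_lhs => rw [fld_comps hx w]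
  rw [map_add, map_smul, fderiv_hom hf hd, smul_zero, add_zero]
  rfl

theorem form_apply (α : E4 → V3) (x w : E4) : form α x w = α x ⬝ᵥ comps x w := by
  unfold form comps
  simp only [dotProduct, _root_.sum_apply, _root_.smul_apply, smul_eq_mul]
  refine Finset.sum_congr rfl fun i _ => ?_
  show α x i / ‖x‖ ^ 2 * inner ℝ (J i x) w = _
  ring

theorem g_symm (S : Geo) {x : E4} (hx : x ≠ 0) (v w : V3) : S.g x v w = S.g x w v := by
  unfold Geo.g bil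
  rw [dotProduct_mulVec, ← mulVec_transpose, S.symm x hx, dotProduct_comm]

theorem g_nondeg (S : Geo) {x : E4} (hx : x ≠ 0) {v : V3} (h : ∀ w, S.g x v w = 0) : v = 0 := by
  have h1 : S.G x *ᵥ v = 0 := by
    apply dotProduct_eq_zero_iff.1
    intro w
    have h2 := h w
    rw [g_symm S hx] at h2
    unfold Geo.g bil at h2
    rw [dotProduct_comm]
    exact h2
  have hdet : (S.G x).det ≠ 0 := (S.det_neg x hx).ne
  exact Matrix.eq_zero_of_mulVec_eq_zero hdet h1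

theorem g_L (S : Geo) {x : E4} (hx : x ≠ 0) (v w : V3) :
    S.g x (S.L x *ᵥ v) w = S.g x v (S.L x *ᵥ w) := by
  have h := S.selfadj x hx
  rw [g_symm S hx]
  unfold Geo.g bil
  rw [mulVec_mulVec, mulVec_mulVec, dotProduct_mulVec w, ← mulVec_transpose, h, dotProduct_comm]

theorem nab_smul (S : Geo) {f : E4 → ℝ} {V : E4 → V3} {x : E4} (hf : DifferentiableAt ℝ f x)
    (hV : DifferentiableAt ℝ V x) (v : V3) :
    S.nab (fun y => f y • V y) v x = Dv f v x • V x + f x • S.nab V v x := by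
  have h := (hf.hasFDerivAt.smul hV.hasFDerivAt).fderiv
  have h' : fderiv ℝ (fun y => f y • V y) x = f x • fderiv ℝ V x +
    (fderiv ℝ f x).smulRight (V x) := h
  unfold Geo.nab Dv
  rw [h', _root_.add_apply, _root_.smul_apply, ContinuousLinearMap.smulRight_apply, mulVec_smul,
    smul_add]
  abel

theorem nab_add (S : Geo) {V W : E4 → V3} {x : E4} (hV : DifferentiableAt ℝ V x)
    (hW : DifferentiableAt ℝ W x) (v : V3) :
    S.nab (fun y => V y + W y) v x = S.nab V v x + S.nab W v x := by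
  have h : fderiv ℝ (fun y => V y + W y) x = fderiv ℝ V x + fderiv ℝ W x :=
    (hV.hasFDerivAt.add hW.hasFDerivAt).fderiv
  unfold Geo.nab Dv
  rw [h, _root_.add_apply, mulVec_add]
  abel

end Pool.Agent.helper68.B2.T
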