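import Mathlib
import Pool.Agent.helper98.B2.GA
import Pool.Agent.helper25.B2.TDefs
import Pool.Agent.helper9.B2.T1a

/-! # MP_b2b189_gt: module T1b, calculus in the frame, second part -/

set_option autoImplicit false

namespace Pool.Agent.helper68.B2.T

open scoped ContDiff Topology Matrix
open Matrix Set Filter

theorem Dv_g (S : Geo) {V W : E4 → V3} {x : E4} (hx : x ≠ 0) (hV : DifferentiableAt ℝ V x)
    (hW : DifferentiableAt ℝ W x) (v : V3) :
    Dv (fun y => S.g y (V y) (W y)) v x = S.g x (S.nab V v x) (W x) + S.g x (V x) (S.nab W v x) :=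
  S.nab_g hx hV hW v

/-- product rule for `L` -/
theorem nab_L (S : Geo) {V : E4 → V3} {x : E4} (hx : x ≠ 0) (hV : DifferentiableAt ℝ V x) (v : V3) :
    S.nab (fun y => S.L y *ᵥ V y) v x =
      S.L x *ᵥ S.nab V v x + (S.g x (S.lam x) (V x) • v + S.g x v (V x) • S.lam x) := by
  rw [S.nab_mulVec (S.GA_diffL hx) hV, S.main_v hx, S.od_apply hx, add_comm]

theorem T1b_fld_bilin (v : V3) (a b : E4) (c : ℝ) : fld v (a + b) = fld v a + fld v b ∧
    fld v (c • a) = c • fld v a := by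
  unfold fld
  constructor
  · rw [← Finset.sum_add_distrib]
    refine Finset.sum_congr rfl fun i _ => ?_
    rw [map_add, smul_add]
  · rw [Finset.smul_sum]
    refine Finset.sum_congr rfl fun i _ => ?_
    rw [map_smul, smul_comm]

theorem T1b_fld_fld (v w : V3) (x : E4) : fld w (fld v x) - fld v (fld w x) =
    fld (fun k => 2 * ∑ i, ∑ j, eps i j k * v i * w j) x := by
  have h1 : fld w (fld v x) = ∑ i, ∑ j, (v i * w j) • J j (J i x) := by
    unfold fld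
    simp only [map_sum, map_smul, Finset.smul_sum, smul_smul]
    rw [Finset.sum_comm]
    refine Finset.sum_congr rfl fun i _ => Finset.sum_congr rfl fun j _ => ?_
    rw [mul_comm]
  have h2 : fld v (fld w x) = ∑ i, ∑ j, (v i * w j) • J i (J j x) := by
    unfold fld
    simp only [map_sum, map_smul, Finset.smul_sum, smul_smul]
  rw [h1, h2, ← Finset.sum_sub_distrib]
  have h3 : ∀ i, (∑ j, (v i * w j) • J j (J i x) - ∑ j, (v i * w j) • J i (J j x)) =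
      ∑ j, ∑ k, ((v i * w j) * (2 * eps i j k)) • J k x := by
    intro i
    rw [← Finset.sum_sub_distrib]
    refine Finset.sum_congr rfl fun j _ => ?_
    rw [← smul_sub, T1a_J_J, Finset.smul_sum]
    refine Finset.sum_congr rfl fun k _ => ?_
    rw [smul_smul]
  simp only [h3]
  unfold fld
  simp only [Fin.sum_univ_three]
  module

/-- the derivative of a frame field -/
theorem T1b_fderiv_fld {W : E4 → V3} {x : E4} (hW : DifferentiableAt ℝ W x) (u : E4) :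
    fderiv ℝ (fun y => fld (W y) y) x u = fld (fderiv ℝ W x u) x + fld (W x) u := by
  have hWi : ∀ i, HasFDerivAt (fun y => W y i)
      ((ContinuousLinearMap.proj (R := ℝ) (φ := fun _ : Fin 3 => ℝ) i).comp (fderiv ℝ W x)) x := by
    intro i
    exact (hasFDerivAt_pi'.1 hW.hasFDerivAt) i
  have h1 := HasFDerivAt.fun_sum (u := Finset.univ)
    (fun i _ => (hWi i).smul ((J i).hasFDerivAt (x := x)))
  have h2 : fderiv ℝ (fun y => fld (W y) y) x = _ := h1.fderiv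
  rw [h2]
  simp only [_root_.sum_apply, _root_.add_apply, _root_.smul_apply, ContinuousLinearMap.smulRight_apply,
    ContinuousLinearMap.comp_apply]
  rw [Finset.sum_add_distrib, add_comm]
  rfl

/-- Lie bracket of two frame fields through the Levi-Civita connection -/
theorem bracket_fld (S : Geo) {V W : E4 → V3} {x : E4} (hx : x ≠ 0) (hV : DifferentiableAt ℝ V x)
    (hW : DifferentiableAt ℝ W x) :
    fderiv ℝ (fun y => fld (W y) y) x (fld (V x) x) - fderiv ℝ (fun y => fld (V y) y) x (fld (W x) x) =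
      fld (S.nab W (V x) x - S.nab V (W x) x) x := by
  rw [T1b_fderiv_fld hV, T1b_fderiv_fld hW]
  have h1 : S.nab W (V x) x - S.nab V (W x) x = fderiv ℝ W x (fld (V x) x)
      - fderiv ℝ V x (fld (W x) x) + (S.Gam (V x) x *ᵥ W x - S.Gam (W x) x *ᵥ V x) := by
    unfold Geo.nab Dv
    abel
  rw [h1, S.torsion_v hx, T1a_fld_add, T1a_fld_sub, ← T1b_fld_fld]
  abel

theorem T1b_skew (i : Fin 3) (w w' : E4) : inner ℝ (J i w') w = -(inner ℝ (J i w) w' : ℝ) := by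
  obtain ⟨a0, a1, a2, a3⟩ := T1a_J0 w
  obtain ⟨b0, b1, b2, b3⟩ := T1a_J1 w
  obtain ⟨c0, c1, c2, c3⟩ := T1a_J2 w
  obtain ⟨d0, d1, d2, d3⟩ := T1a_J0 w'
  obtain ⟨e0, e1, e2, e3⟩ := T1a_J1 w'
  obtain ⟨f0, f1, f2, f3⟩ := T1a_J2 w'
  rw [T1a_inner, T1a_inner]
  fin_cases i
  · simp [Fin.sum_univ_four, a0, a1, a2, a3, d0, d1, d2, d3]; ring
  · simp [Fin.sum_univ_four, b0, b1, b2, b3, e0, e1, e2, e3]; ring
  · simp [Fin.sum_univ_four, c0, c1, c2, c3, f0, f1, f2, f3]; ring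

/-- the quaternionic identity behind `d θ_k = -2 ∑ eps i j k θ_i θ_j` -/
theorem T1b_quat (k : Fin 3) (x w w' : E4) :
    (inner ℝ (J k w) w' : ℝ) * ‖x‖ ^ 2 =
      inner ℝ x w * inner ℝ (J k x) w' - inner ℝ x w' * inner ℝ (J k x) w
        - ∑ i, ∑ j, eps i j k * inner ℝ (J i x) w * inner ℝ (J j x) w' := by
  obtain ⟨a0, a1, a2, a3⟩ := T1a_J0 x
  obtain ⟨b0, b1, b2, b3⟩ := T1a_J1 x
  obtain ⟨c0, c1, c2, c3⟩ := T1a_J2 x
  obtain ⟨d0, d1, d2, d3⟩ := T1a_J0 w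
  obtain ⟨e0, e1, e2, e3⟩ := T1a_J1 w
  obtain ⟨f0, f1, f2, f3⟩ := T1a_J2 w
  rw [T1a_norm_sq]
  simp only [T1a_inner, Fin.sum_univ_four, Fin.sum_univ_three, a0, a1, a2, a3, b0, b1, b2, b3,
    c0, c1, c2, c3]
  fin_cases k
  · simp [eps, a0, a1, a2, a3, d0, d1, d2, d3]; ring
  · simp [eps, b0, b1, b2, b3, e0, e1, e2, e3]; ring
  · simp [eps, c0, c1, c2, c3, f0, f1, f2, f3]; ring

/-- the inner product as a linear map into linear forms -/
noncomputable def T1b_I : E4 →L[ℝ] E4 →L[ℝ] ℝ := innerSL ℝ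

theorem T1b_I_apply (x y : E4) : T1b_I x y = inner ℝ x y := rfl

theorem T1b_fderiv_form {α : E4 → V3} {x : E4} (hx : x ≠ 0) (hα : DifferentiableAt ℝ α x)
    (w w' : E4) :
    fderiv ℝ (form α) x w w' = fderiv ℝ α x w ⬝ᵥ comps x w' +
      ∑ i, α x i * (inner ℝ (J i w) w' / ‖x‖ ^ 2 -
        2 * inner ℝ x w * inner ℝ (J i x) w' / (‖x‖ ^ 2) ^ 2) := by
  have hN : ‖x‖ ^ 2 ≠ 0 := pow_ne_zero 2 (norm_ne_zero_iff.2 hx)
  have hαi : ∀ i, HasFDerivAt (fun y => α y i)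
      ((ContinuousLinearMap.proj (R := ℝ) (φ := fun _ : Fin 3 => ℝ) i).comp (fderiv ℝ α x)) x := by
    intro i
    exact (hasFDerivAt_pi'.1 hα.hasFDerivAt) i
  have hn : HasFDerivAt (fun y : E4 => ‖y‖ ^ 2) (2 • (T1b_I x)) x :=
    (hasStrictFDerivAt_norm_sq x).hasFDerivAt
  have hni : HasFDerivAt (fun y : E4 => (‖y‖ ^ 2)⁻¹)
      ((-((‖x‖ ^ 2) ^ 2)⁻¹) • (2 • (T1b_I x))) x :=
    (hasDerivAt_inv hN).comp_hasFDerivAt x hn
  have hJ : ∀ i, HasFDerivAt (fun y : E4 => T1b_I (J i y)) (T1b_I.comp (J i)) x := by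
    intro i
    exact (T1b_I.comp (J i)).hasFDerivAt
  have hterm : ∀ i, HasFDerivAt (fun y : E4 => (α y i * (‖y‖ ^ 2)⁻¹) • (T1b_I (J i y)))
      ((α x i * (‖x‖ ^ 2)⁻¹) • (T1b_I.comp (J i)) +
        (α x i • ((-((‖x‖ ^ 2) ^ 2)⁻¹) • (2 • (T1b_I x))) +
          (‖x‖ ^ 2)⁻¹ • ((ContinuousLinearMap.proj (R := ℝ) (φ := fun _ : Fin 3 => ℝ) i).comp
            (fderiv ℝ α x))).smulRight (T1b_I (J i x))) x := by
    intro i
    exact ((hαi i).mul hni).smul (hJ i)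
  have h1 := HasFDerivAt.fun_sum (u := Finset.univ) (fun i _ => hterm i)
  have h2 : (form α) = fun y => ∑ i, (α y i * (‖y‖ ^ 2)⁻¹) • (T1b_I (J i y)) := by
    funext y
    simp only [form, div_eq_mul_inv]
    rfl
  rw [h2, h1.fderiv]
  simp only [_root_.sum_apply, _root_.add_apply, _root_.smul_apply, ContinuousLinearMap.smulRight_apply,
    ContinuousLinearMap.comp_apply, T1b_I_apply, smul_eq_mul, nsmul_eq_mul, dotProduct, comps]
  rw [← Finset.sum_add_distrib]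
  refine Finset.sum_congr rfl fun i _ => ?_
  simp only [ContinuousLinearMap.proj_apply]
  push_cast
  field_simp
  ring

/-- exterior derivative of the 1-form `V♭` -/
theorem form_flat_d (S : Geo) {V : E4 → V3} (hV : Hom V) {x : E4} (hx : x ≠ 0)
    (hd : DifferentiableAt ℝ V x) (w w' : E4) :
    fderiv ℝ (form fun y => S.G y *ᵥ V y) x w w' - fderiv ℝ (form fun y => S.G y *ᵥ V y) x w' w =
      S.g x (S.nab V (comps x w) x) (comps x w') - S.g x (S.nab V (comps x w') x) (comps x w) := by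
  have hN : ‖x‖ ^ 2 ≠ 0 := pow_ne_zero 2 (norm_ne_zero_iff.2 hx)
  have hα : DifferentiableAt ℝ (fun y => S.G y *ᵥ V y) x :=
    ((B0b_H_of (v := 0) (S.GA_diffG hx)).bilin B0b_bil_mulVec (B0b_H_of hd)).diff
  have hh : Hom (fun y => S.G y *ᵥ V y) := by
    intro t ht y
    show S.G (t • y) *ᵥ V (t • y) = S.G y *ᵥ V y
    rw [S.homG t ht, hV t ht]
  rw [T1b_fderiv_form hx hα, T1b_fderiv_form hx hα, fderiv_eq_Dv hh hx hα, fderiv_eq_Dv hh hx hα]
  obtain ⟨c, hc⟩ : ∃ c, c = comps x w := ⟨_, rfl⟩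
  obtain ⟨c', hc'⟩ : ∃ c', c' = comps x w' := ⟨_, rfl⟩
  have hD : ∀ a b : V3, Dv (fun y => S.G y *ᵥ V y) a x ⬝ᵥ b =
      S.g x (S.nab V a x) b + (S.G x *ᵥ V x) ⬝ᵥ (S.Gam a x *ᵥ b) := by
    intro a b
    rw [Dv_mulVec (S.GA_diffG hx) hd, S.metric_v hx]
    have h1 : S.g x (S.nab V a x) b = (S.G x *ᵥ S.nab V a x) ⬝ᵥ b := by
      rw [g_symm S hx, dotProduct_comm]; rfl
    rw [h1]
    unfold Geo.nab
    rw [mulVec_add, add_mulVec, add_dotProduct, add_dotProduct, add_dotProduct,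
      ← mulVec_mulVec, ← mulVec_mulVec]
    have h2 : ((S.Gam a x)ᵀ *ᵥ (S.G x *ᵥ V x)) ⬝ᵥ b = (S.G x *ᵥ V x) ⬝ᵥ (S.Gam a x *ᵥ b) := by
      rw [mulVec_transpose, ← dotProduct_mulVec]
    rw [h2]
    ring
  rw [hD, hD]
  have hT : (S.G x *ᵥ V x) ⬝ᵥ (S.Gam (comps x w) x *ᵥ comps x w')
      - (S.G x *ᵥ V x) ⬝ᵥ (S.Gam (comps x w') x *ᵥ comps x w) =
      ∑ k, (S.G x *ᵥ V x) k * (2 * ∑ i, ∑ j, eps i j k * comps x w i * comps x w' j) := by
    rw [← dotProduct_sub, S.torsion_v hx]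
    rfl
  have hQ : ∀ k, (inner ℝ (J k w) w' / ‖x‖ ^ 2 -
        2 * inner ℝ x w * inner ℝ (J k x) w' / (‖x‖ ^ 2) ^ 2) - (inner ℝ (J k w') w / ‖x‖ ^ 2 -
        2 * inner ℝ x w' * inner ℝ (J k x) w / (‖x‖ ^ 2) ^ 2) =
        -(2 * ∑ i, ∑ j, eps i j k * comps x w i * comps x w' j) := by
    intro k
    have h1 := T1b_quat k x w w'
    have h2 : ∑ i, ∑ j, eps i j k * comps x w i * comps x w' j =
        (∑ i, ∑ j, eps i j k * inner ℝ (J i x) w * inner ℝ (J j x) w') / (‖x‖ ^ 2) ^ 2 := by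
      unfold comps
      rw [Finset.sum_div]
      refine Finset.sum_congr rfl fun i _ => ?_
      rw [Finset.sum_div]
      refine Finset.sum_congr rfl fun j _ => ?_
      field_simp
    rw [h2, T1b_skew k w w']
    have h3 : (inner ℝ (J k w) w' : ℝ) / ‖x‖ ^ 2 = (inner ℝ (J k w) w' * ‖x‖ ^ 2) / (‖x‖ ^ 2) ^ 2 := by
      field_simp
    rw [neg_div, h3, h1]
    field_simp
    ring
  have hS : (∑ i, (S.G x *ᵥ V x) i * (inner ℝ (J i w) w' / ‖x‖ ^ 2 -
        2 * inner ℝ x w * inner ℝ (J i x) w' / (‖x‖ ^ 2) ^ 2)) -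
      (∑ i, (S.G x *ᵥ V x) i * (inner ℝ (J i w') w / ‖x‖ ^ 2 -
        2 * inner ℝ x w' * inner ℝ (J i x) w / (‖x‖ ^ 2) ^ 2)) =
      -∑ k, (S.G x *ᵥ V x) k * (2 * ∑ i, ∑ j, eps i j k * comps x w i * comps x w' j) := by
    rw [← Finset.sum_sub_distrib, ← Finset.sum_neg_distrib]
    refine Finset.sum_congr rfl fun k _ => ?_
    rw [← mul_sub, hQ k]
    ring
  linarith

end Pool.Agent.helper68.B2.T
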